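import Pool.Agent.Y139.FR.Loc

/-! Linearisation of Lipschitz maps between metric spaces: maps between Lipschitz-free spaces. -/

set_option autoImplicit false

noncomputable section

namespace Pool.Agent.Y139.FR

open Finset Real Pool.Agent.H266R3 Pool.Agent.H266R3.LF

section lin

variable {M N : Type} [MetricSpace M] [MetricSpace N] (o : M) (p : N)

/-- composition with a Lipschitz map: `h ↦ h ∘ g - h (g o)` -/
def cmp (g : M → N) (K : ℝ) (hK : 0 ≤ K) (hg : ∀ x y, dist (g x) (g y) ≤ K * dist x y) :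
    Lip0 N p →L[ℝ] Lip0 M o :=
  LinearMap.mkContinuous
    { toFun := fun h => Lip0.mk (fun x => h.fn (g x) - h.fn (g o)) (by simp) (‖h‖ * K)
        (by positivity) (fun x y => by
          have h1 := h.abs_sub_le (g x) (g y)
          have h2 : h.fn (g x) - h.fn (g o) - (h.fn (g y) - h.fn (g o)) = h.fn (g x) - h.fn (g y) := by
            ring
          rw [h2, mul_assoc]
          exact h1.trans (mul_le_mul_of_nonneg_left (hg x y) (norm_nonneg _)))
      map_add' := fun h h' => by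
        apply Lip0.ext
        intro x
        simp only [Lip0.fn_mk, Lip0.fn_add]
        ring
      map_smul' := fun c h => by
        apply Lip0.ext
        intro x
        simp only [Lip0.fn_mk, Lip0.fn_smul, RingHom.id_apply]
        ring } K (fun h => by
        refine Lip0.norm_le' _ (by positivity) fun x y => ?_
        have h1 := h.abs_sub_le (g x) (g y)
        have h2 : h.fn (g x) - h.fn (g o) - (h.fn (g y) - h.fn (g o)) = h.fn (g x) - h.fn (g y) := by
          ring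
        change |h.fn (g x) - h.fn (g o) - (h.fn (g y) - h.fn (g o))| ≤ _
        rw [h2, mul_comm K, mul_assoc]
        exact h1.trans (mul_le_mul_of_nonneg_left (hg x y) (norm_nonneg _)))

theorem cmp_fn (g : M → N) (K : ℝ) (hK : 0 ≤ K) (hg : ∀ x y, dist (g x) (g y) ≤ K * dist x y)
    (h : Lip0 N p) (x : M) : (cmp o p g K hK hg h).fn x = h.fn (g x) - h.fn (g o) := rfl

/-- push forward of functionals -/
def push (g : M → N) (K : ℝ) (hK : 0 ≤ K) (hg : ∀ x y, dist (g x) (g y) ≤ K * dist x y) :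
    StrongDual ℝ (Lip0 M o) →L[ℝ] StrongDual ℝ (Lip0 N p) :=
  (ContinuousLinearMap.compL ℝ (Lip0 N p) (Lip0 M o) ℝ).flip (cmp o p g K hK hg)

theorem push_apply (g : M → N) (K : ℝ) (hK : 0 ≤ K)
    (hg : ∀ x y, dist (g x) (g y) ≤ K * dist x y) (μ : StrongDual ℝ (Lip0 M o)) (h : Lip0 N p) :
    push o p g K hK hg μ h = μ (cmp o p g K hK hg h) := rfl

theorem push_mem (g : M → N) (K : ℝ) (hK : 0 ≤ K)
    (hg : ∀ x y, dist (g x) (g y) ≤ K * dist x y) (μ : StrongDual ℝ (Lip0 M o))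
    (hμ : μ ∈ LFree M o) : push o p g K hK hg μ ∈ LFree N p := by
  have h1 : ∀ ν ∈ ((Submodule.span ℝ (Set.range (dlt M o)) : Submodule ℝ _) : Set _),
      push o p g K hK hg ν ∈ ((Submodule.span ℝ (Set.range (dlt N p)) : Submodule ℝ _) : Set _) := by
    intro ν hν
    have h2 : Submodule.span ℝ (Set.range (dlt M o)) ≤
        (Submodule.span ℝ (Set.range (dlt N p))).comap
          (push o p g K hK hg : StrongDual ℝ (Lip0 M o) →ₗ[ℝ] StrongDual ℝ (Lip0 N p)) := by
      rw [Submodule.span_le]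
      rintro _ ⟨x, rfl⟩
      rw [SetLike.mem_coe, Submodule.mem_comap]
      have h3 : (push o p g K hK hg : StrongDual ℝ (Lip0 M o) →ₗ[ℝ] StrongDual ℝ (Lip0 N p))
          (dlt M o x) = dlt N p (g x) - dlt N p (g o) := by
        ext h
        rfl
      rw [h3]
      exact Submodule.sub_mem _ (Submodule.subset_span ⟨_, rfl⟩) (Submodule.subset_span ⟨_, rfl⟩)
    exact h2 hν
  exact map_mem_closure (push o p g K hK hg).continuous hμ h1

/-- The operator `F(M) → F(N)` induced by a Lipschitz map. -/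
def lin (g : M → N) (K : ℝ) (hK : 0 ≤ K) (hg : ∀ x y, dist (g x) (g y) ≤ K * dist x y) :
    FreeSp M o →L[ℝ] FreeSp N p :=
  LinearMap.mkContinuous
    { toFun := fun μ => ⟨push o p g K hK hg (inc M o μ), push_mem o p g K hK hg _ (inc_mem μ)⟩
      map_add' := fun μ ν => by
        apply Subtype.ext
        change push o p g K hK hg (inc M o (μ + ν)) = _
        rw [map_add, map_add]
        rfl
      map_smul' := fun c μ => by
        apply Subtype.ext
        change push o p g K hK hg (inc M o (c • μ)) = _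
        rw [map_smul, map_smul]
        rfl } ‖push o p g K hK hg‖ (fun μ => (push o p g K hK hg).le_opNorm (inc M o μ))

theorem inc_lin (g : M → N) (K : ℝ) (hK : 0 ≤ K)
    (hg : ∀ x y, dist (g x) (g y) ≤ K * dist x y) (μ : FreeSp M o) (h : Lip0 N p) :
    inc N p (lin o p g K hK hg μ) h = inc M o μ (cmp o p g K hK hg h) := rfl

/-- McShane extension. -/
theorem exists_ext {X : Type} [MetricSpace X] (g : X → N) (L : ℝ) (hL : 0 ≤ L)
    (hlow : ∀ x y, dist x y ≤ L * dist (g x) (g y)) (f : X → ℝ) (C : ℝ) (hC : 0 ≤ C)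
    (hf : ∀ x y, |f x - f y| ≤ C * dist x y) :
    ∃ (h : Lip0 N p) (a : ℝ), ‖h‖ ≤ C * L ∧ ∀ x, h.fn (g x) = f x - a := by
  classical
  have hinj : Function.Injective g := by
    intro x y hxy
    have := hlow x y
    rw [hxy, dist_self, mul_zero] at this
    exact dist_le_zero.1 this
  rcases isEmpty_or_nonempty X with hX | hX
  · refine ⟨0, 0, by rw [norm_zero]; positivity, fun x => (hX.false x).elim⟩
  set f' : N → ℝ := fun y => f (Function.invFun g y) with hf'
  have hf'g : ∀ x, f' (g x) = f x := fun x => by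
    rw [hf']
    simp only
    rw [Function.leftInverse_invFun hinj x]
  have hlip : LipschitzOnWith (Real.toNNReal (C * L)) f' (Set.range g) := by
    rintro _ ⟨x, rfl⟩ _ ⟨y, rfl⟩
    rw [edist_dist, edist_dist, ← ENNReal.ofReal_coe_nnreal,
      ← ENNReal.ofReal_mul (NNReal.coe_nonneg _)]
    apply ENNReal.ofReal_le_ofReal
    rw [hf'g, hf'g, Real.coe_toNNReal _ (by positivity), Real.dist_eq]
    calc |f x - f y| ≤ C * dist x y := hf x y
      _ ≤ C * (L * dist (g x) (g y)) := mul_le_mul_of_nonneg_left (hlow x y) hC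
      _ = _ := by ring
  obtain ⟨F, hF, hFe⟩ := hlip.extend_real
  have hFl : ∀ x y, |F x - F y| ≤ C * L * dist x y := by
    intro x y
    have := hF.dist_le_mul x y
    rw [Real.dist_eq, Real.coe_toNNReal _ (by positivity)] at this
    exact this
  refine ⟨Lip0.mk (fun y => F y - F p) (by simp) (C * L) (by positivity) (fun x y => ?_), F p, ?_, ?_⟩
  · have := hFl x y
    simpa using this
  · refine Lip0.norm_le' _ (by positivity) fun x y => ?_
    have := hFl x y
    simpa using this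
  · intro x
    rw [Lip0.fn_mk, ← hFe ⟨x, rfl⟩, hf'g]

/-- The operator induced by a bi-Lipschitz embedding is bounded below. -/
theorem lin_lower (g : M → N) (K : ℝ) (hK : 0 ≤ K) (hg : ∀ x y, dist (g x) (g y) ≤ K * dist x y)
    (L : ℝ) (hL : 0 ≤ L) (hlow : ∀ x y, dist x y ≤ L * dist (g x) (g y)) (μ : FreeSp M o) :
    ‖μ‖ ≤ L * ‖lin o p g K hK hg μ‖ := by
  have h0 : ‖inc M o μ‖ ≤ L * ‖lin o p g K hK hg μ‖ := by
    refine ContinuousLinearMap.opNorm_le_bound _ (mul_nonneg hL (norm_nonneg _)) fun f => ?_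
    obtain ⟨h, a, hh, hval⟩ := exists_ext p g L hL hlow f.fn ‖f‖ (norm_nonneg _) f.abs_sub_le
    have h1 : cmp o p g K hK hg h = f := by
      apply Lip0.ext
      intro x
      rw [cmp_fn, hval, hval, Lip0.fn_base]
      ring
    have h2 : inc M o μ f = inc N p (lin o p g K hK hg μ) h := by rw [inc_lin, h1]
    rw [h2]
    calc ‖inc N p (lin o p g K hK hg μ) h‖
        ≤ ‖inc N p (lin o p g K hK hg μ)‖ * ‖h‖ := ContinuousLinearMap.le_opNorm _ _
      _ ≤ ‖lin o p g K hK hg μ‖ * (‖f‖ * L) :=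
          mul_le_mul_of_nonneg_left hh (norm_nonneg _)
      _ = _ := by ring
  exact h0

end lin

/-- The closed unit square of the Euclidean plane. -/
def unitSquare : Set (EuclideanSpace ℝ (Fin 2)) := {x | ∀ i, 0 ≤ x i ∧ x i ≤ 1}

/-- clamping to `[0,1]` -/
def cl1 (t : ℝ) : ℝ := max 0 (min 1 t)

theorem cl1_mem (t : ℝ) : 0 ≤ cl1 t ∧ cl1 t ≤ 1 :=
  ⟨le_max_left _ _, max_le zero_le_one (min_le_left _ _)⟩

theorem cl1_eq {t : ℝ} (h0 : 0 ≤ t) (h1 : t ≤ 1) : cl1 t = t := by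
  unfold cl1
  rw [min_eq_right h1, max_eq_right h0]

theorem cl1_lip (s t : ℝ) : |cl1 s - cl1 t| ≤ |s - t| := by
  unfold cl1
  have h1 := abs_max_sub_max_le_max 0 (min 1 s) 0 (min 1 t)
  have h2 := abs_min_sub_min_le_max 1 s 1 t
  rw [sub_self, abs_zero, max_eq_right (abs_nonneg (min 1 s - min 1 t))] at h1
  rw [sub_self, abs_zero, max_eq_right (abs_nonneg (s - t))] at h2
  exact h1.trans h2

/-- the nearest point retraction of the plane onto the unit square -/
def clp (x : Plane) : ↥unitSquare := ⟨!₂[cl1 (x 0), cl1 (x 1)], by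
  intro i
  fin_cases i
  · exact cl1_mem _
  · exact cl1_mem _⟩

theorem clp_lip (x y : Plane) : dist (clp x) (clp y) ≤ 1 * dist x y := by
  rw [one_mul, Subtype.dist_eq, EuclideanSpace.dist_eq, EuclideanSpace.dist_eq]
  apply Real.sqrt_le_sqrt
  rw [Fin.sum_univ_two, Fin.sum_univ_two]
  have h0 := cl1_lip (x 0) (y 0)
  have h1 := cl1_lip (x 1) (y 1)
  have e0 : dist ((clp x : Plane) 0) ((clp y : Plane) 0) = |cl1 (x 0) - cl1 (y 0)| := by
    rw [Real.dist_eq]; rfl
  have e1 : dist ((clp x : Plane) 1) ((clp y : Plane) 1) = |cl1 (x 1) - cl1 (y 1)| := by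
    rw [Real.dist_eq]; rfl
  rw [e0, e1, Real.dist_eq, Real.dist_eq]
  have := pow_le_pow_left₀ (abs_nonneg _) h0 2
  have := pow_le_pow_left₀ (abs_nonneg _) h1 2
  linarith

theorem clp_coe (x : ↥unitSquare) : clp (x : Plane) = x := by
  apply Subtype.ext
  ext i
  fin_cases i
  · exact cl1_eq (x.2 0).1 (x.2 0).2
  · exact cl1_eq (x.2 1).1 (x.2 1).2

theorem em_congr (n m1 m2 : ℕ) (a b σ : ℝ) (hσ : 0 < σ) (ha : 0 ≤ a) (ha1 : a + n * σ ≤ 1)
    (hb : 0 ≤ b) (hb1 : b + n * σ ≤ 1) (f f' : Lip0 Plane 0)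
    (h : ∀ x ∈ unitSquare, f.fn x = f'.fn x) :
    inc Plane 0 (LF.em n m1 m2 a b σ) f = inc Plane 0 (LF.em n m1 m2 a b σ) f' := by
  unfold LF.em
  simp only [map_sum, _root_.sum_apply]
  refine sum_congr rfl fun i hi => sum_congr rfl fun j hj => ?_
  simp only [map_smul, inc_dp, smul_apply, dlt_apply]
  congr 1
  apply h
  have hi' : (i : ℝ) * σ ≤ n * σ := by
    apply mul_le_mul_of_nonneg_right _ hσ.le
    exact_mod_cast (mem_range.1 hi).le
  have hj' : (j : ℝ) * σ ≤ n * σ := by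
    apply mul_le_mul_of_nonneg_right _ hσ.le
    exact_mod_cast (mem_range.1 hj).le
  have hi0 : 0 ≤ (i : ℝ) * σ := by positivity
  have hj0 : 0 ≤ (j : ℝ) * σ := by positivity
  intro k
  fin_cases k
  · change 0 ≤ pp _ _ 0 ∧ pp _ _ 0 ≤ 1
    rw [pp_zero]
    constructor <;> linarith
  · change 0 ≤ pp _ _ 1 ∧ pp _ _ 1 ≤ 1
    rw [pp_one]
    constructor <;> linarith

/-- **Non-embedding.** -/
theorem no_embedding_general (M N : Type) [MetricSpace M] [MetricSpace N] (o : M) (p : N)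
    (ι : ↥unitSquare → M) (K₁ L₁ : ℝ) (hK₁ : ∀ x y, dist (ι x) (ι y) ≤ K₁ * dist x y)
    (hL₁ : ∀ x y, dist x y ≤ L₁ * dist (ι x) (ι y))
    (κ : N → Lines) (K₂ L₂ : ℝ) (hK₂ : ∀ x y, dist (κ x) (κ y) ≤ K₂ * dist x y)
    (hL₂ : ∀ x y, dist x y ≤ L₂ * dist (κ x) (κ y))
    (S : FreeSp M o →L[ℝ] FreeSp N p) (c : ℝ) (hc : 0 < c) (hS : ∀ μ, c * ‖μ‖ ≤ ‖S μ‖) : False := by
  -- make the constants positive
  have hK₁' : ∀ x y, dist (ι x) (ι y) ≤ (|K₁| + 1) * dist x y := fun x y =>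
    (hK₁ x y).trans (mul_le_mul_of_nonneg_right (by have := le_abs_self K₁; linarith) dist_nonneg)
  have hL₁' : ∀ x y, dist x y ≤ (|L₁| + 1) * dist (ι x) (ι y) := fun x y =>
    (hL₁ x y).trans (mul_le_mul_of_nonneg_right (by have := le_abs_self L₁; linarith) dist_nonneg)
  have hK₂' : ∀ x y, dist (κ x) (κ y) ≤ (|K₂| + 1) * dist x y := fun x y =>
    (hK₂ x y).trans (mul_le_mul_of_nonneg_right (by have := le_abs_self K₂; linarith) dist_nonneg)
  have hL₂' : ∀ x y, dist x y ≤ (|L₂| + 1) * dist (κ x) (κ y) := fun x y =>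
    (hL₂ x y).trans (mul_le_mul_of_nonneg_right (by have := le_abs_self L₂; linarith) dist_nonneg)
  have hk1 : 0 < |K₁| + 1 := by positivity
  have hl1 : 0 < |L₁| + 1 := by positivity
  have hk2 : 0 < |K₂| + 1 := by positivity
  have hl2 : 0 < |L₂| + 1 := by positivity
  have hg : ∀ x y : Plane, dist (ι (clp x)) (ι (clp y)) ≤ (|K₁| + 1) * dist x y := fun x y =>
    (hK₁' _ _).trans (mul_le_mul_of_nonneg_left (by have := clp_lip x y; linarith) hk1.le)
  set g : Plane → M := fun x => ι (clp x) with hgdef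
  set A := lin (0 : Plane) o g (|K₁| + 1) hk1.le hg with hA
  set B := lin p lo κ (|K₂| + 1) hk2.le hK₂' with hB
  have hAlow : ∀ (n m1 m2 : ℕ) (a b σ : ℝ), 0 < σ → 0 ≤ a → a + n * σ ≤ 1 → 0 ≤ b → b + n * σ ≤ 1 →
      ‖LF.em n m1 m2 a b σ‖ ≤ (|L₁| + 1) * ‖A (LF.em n m1 m2 a b σ)‖ := by
    intro n m1 m2 a b σ hσ ha ha1 hb hb1
    have h0 : ‖inc Plane 0 (LF.em n m1 m2 a b σ)‖ ≤ (|L₁| + 1) * ‖A (LF.em n m1 m2 a b σ)‖ := by
      refine ContinuousLinearMap.opNorm_le_bound _ (mul_nonneg hl1.le (norm_nonneg _)) fun f => ?_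
      obtain ⟨h, t, hh, hval⟩ := exists_ext o ι (|L₁| + 1) hl1.le hL₁' (fun x => f.fn (x : Plane)) ‖f‖
        (norm_nonneg _) (fun x y => f.abs_sub_le _ _)
      have h1 : inc Plane 0 (LF.em n m1 m2 a b σ) f = inc M o (A (LF.em n m1 m2 a b σ)) h := by
        rw [hA, inc_lin]
        refine em_congr n m1 m2 a b σ hσ ha ha1 hb hb1 _ _ fun x hx => ?_
        rw [cmp_fn, hgdef]
        simp only
        have hz : (0 : Plane) ∈ unitSquare := fun i => by simp
        have e1 : clp x = ⟨x, hx⟩ := clp_coe ⟨x, hx⟩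
        have e2 : clp 0 = ⟨0, hz⟩ := clp_coe ⟨0, hz⟩
        rw [e1, e2, hval, hval]
        simp only [Lip0.fn_base]
        ring
      rw [h1]
      calc ‖inc M o (A (LF.em n m1 m2 a b σ)) h‖
          ≤ ‖inc M o (A (LF.em n m1 m2 a b σ))‖ * ‖h‖ := ContinuousLinearMap.le_opNorm _ _
        _ ≤ ‖A (LF.em n m1 m2 a b σ)‖ * (‖f‖ * (|L₁| + 1)) :=
            mul_le_mul_of_nonneg_left hh (norm_nonneg _)
        _ = _ := by ring
    exact h0
  have hBlow : ∀ ν, ‖ν‖ ≤ (|L₂| + 1) * ‖B ν‖ := fun ν =>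
    lin_lower p lo κ (|K₂| + 1) hk2.le hK₂' (|L₂| + 1) hl2.le hL₂' ν
  refine no_embedding_local (B.comp (S.comp A)) (c / ((|L₁| + 1) * (|L₂| + 1))) (by positivity) ?_
  intro n m1 m2 a b σ hσ ha ha1 hb hb1
  have h1 := hAlow n m1 m2 a b σ hσ ha ha1 hb hb1
  have h2 := hS (A (LF.em n m1 m2 a b σ))
  have h3 := hBlow (S (A (LF.em n m1 m2 a b σ)))
  change c / ((|L₁| + 1) * (|L₂| + 1)) * _ ≤ ‖B (S (A (LF.em n m1 m2 a b σ)))‖
  rw [div_mul_eq_mul_div, div_le_iff₀ (by positivity)]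
  calc c * ‖LF.em n m1 m2 a b σ‖ ≤ c * ((|L₁| + 1) * ‖A (LF.em n m1 m2 a b σ)‖) :=
        mul_le_mul_of_nonneg_left h1 hc.le
    _ = (|L₁| + 1) * (c * ‖A (LF.em n m1 m2 a b σ)‖) := by ring
    _ ≤ (|L₁| + 1) * ‖S (A (LF.em n m1 m2 a b σ))‖ := mul_le_mul_of_nonneg_left h2 hl1.le
    _ ≤ (|L₁| + 1) * ((|L₂| + 1) * ‖B (S (A (LF.em n m1 m2 a b σ)))‖) :=
        mul_le_mul_of_nonneg_left h3 hl1.le
    _ = _ := by ring

end Pool.Agent.Y139.FR
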