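import Pool.Agent.H266R3.LMain

/-! Local versions of two statements of `Pool.Agent.H266R3.LF` (the proofs are adapted from there):
all points stay in the unit square. -/

set_option autoImplicit false

noncomputable section

namespace Pool.Agent.Y139.FR

open Finset Real Pool.Agent.H266R3 Pool.Agent.H266R3.LF

/-- The propagation lemma with all points in the unit square (adapted from `LF.propagate`). -/
theorem propagate_local (A : ℝ → ℝ → StrongDual ℝ (Lip0 ZZ (0, 0))) (Λ : ℝ) (hΛ0 : 0 ≤ Λ)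
    (hA : ∀ a b a' b', ‖A a b - A a' b'‖ ≤ Λ * (|a - a'| + |b - b'|))
    (happ : ∀ a b, ∀ ε : ℝ, 0 < ε → ∃ ρ : ℕ, ∀ h : Lip0 ZZ (0, 0),
      (∀ p, dist p (0, 0) ≤ ρ → h.fn p = 0) → |A a b h| ≤ ε * ‖h‖)
    (ε : ℝ) (hε : 0 < ε) (n : ℕ) (hn : 1 ≤ n) :
    ∃ (a b σ : ℝ) (Ds : StrongDual ℝ (Lip0 ZZ (0, 0))), 0 < σ ∧ 0 ≤ a ∧ a + n * σ ≤ 1 ∧
      0 ≤ b ∧ b + n * σ ≤ 1 ∧
      ∑ j ∈ range n, ∑ i ∈ range n,
        ‖A (a + ((i + 1 : ℕ) : ℝ) * σ) (b + j * σ) - A (a + i * σ) (b + j * σ) - σ • Ds‖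
        ≤ ε * n ^ 2 * σ := by
  set 𝒟 : Set (StrongDual ℝ (Lip0 ZZ (0, 0))) :=
    {D | ∃ a b h : ℝ, 0 < h ∧ 0 ≤ a ∧ a + h ≤ 1 ∧ 0 ≤ b ∧ b < 1 ∧
      D = h⁻¹ • (A (a + h) b - A a b)} with h𝒟
  have hmem : ∀ a b h : ℝ, 0 < h → 0 ≤ a → a + h ≤ 1 → 0 ≤ b → b < 1 →
      h⁻¹ • (A (a + h) b - A a b) ∈ 𝒟 := fun a b h hh h1 h2 h3 h4 =>
    ⟨a, b, h, hh, h1, h2, h3, h4, rfl⟩
  have hDΛ : ∀ D ∈ 𝒟, ‖D‖ ≤ Λ := by
    rintro _ ⟨a, b, h, hh, -, -, -, -, rfl⟩
    rw [norm_smul, norm_inv, Real.norm_eq_abs, abs_of_pos hh, inv_mul_le_iff₀ hh]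
    have := hA (a + h) b a b
    rw [add_sub_cancel_left, sub_self, abs_zero, add_zero, abs_of_pos hh] at this
    linarith
  have hDapp : ∀ D ∈ 𝒟, ∀ ε : ℝ, 0 < ε → ∃ ρ : ℕ, ∀ h : Lip0 ZZ (0, 0),
      (∀ p, dist p (0, 0) ≤ ρ → h.fn p = 0) → |D h| ≤ ε * ‖h‖ := by
    rintro _ ⟨a, b, t, ht, -, -, -, -, rfl⟩ ε hε
    obtain ⟨ρ1, h1⟩ := happ (a + t) b (ε * t / 2) (by positivity)
    obtain ⟨ρ2, h2⟩ := happ a b (ε * t / 2) (by positivity)
    refine ⟨max ρ1 ρ2, fun h hh => ?_⟩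
    have g1 := h1 h (fun p hp => hh p (hp.trans (by exact_mod_cast le_max_left _ _)))
    have g2 := h2 h (fun p hp => hh p (hp.trans (by exact_mod_cast le_max_right _ _)))
    rw [smul_apply, sub_apply, smul_eq_mul, abs_mul, abs_inv, abs_of_pos ht, inv_mul_le_iff₀ ht]
    have := abs_sub (A (a + t) b h) (A a b h)
    linarith
  obtain ⟨φ, s, τ, hτ, hφs, hsup, hdiam⟩ := dent 𝒟
    ⟨_, hmem 0 0 1 one_pos le_rfl (by norm_num) le_rfl one_pos⟩ Λ hDΛ hDapp (ε / 2)
    (by positivity)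
  set η : ℝ := min τ (ε * τ / (8 * (Λ + 1))) with hη
  have hηp : 0 < η := lt_min hτ (by positivity)
  have hητ : η ≤ τ := min_le_left _ _
  have hη2 : η * (8 * (Λ + 1)) ≤ ε * τ := by
    have h1 : η ≤ ε * τ / (8 * (Λ + 1)) := min_le_right _ _
    rwa [le_div_iff₀ (by positivity)] at h1
  obtain ⟨Ds, hDs, hDsφ⟩ := hsup η hηp
  have hnear : ∀ D ∈ 𝒟, ‖D - Ds‖ ≤ ε / 2 + 2 * Λ / τ * (s - D φ) := by
    intro D hD
    have h0 : 0 ≤ s - D φ := sub_nonneg.2 (hφs D hD)
    have h1 : 0 ≤ 2 * Λ / τ * (s - D φ) := by positivity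
    by_cases hc : s - τ < D φ
    · have := hdiam D hD Ds hDs hc (by linarith)
      linarith
    · push Not at hc
      have h2 : ‖D - Ds‖ ≤ 2 * Λ := by
        have := norm_sub_le D Ds
        have := hDΛ D hD
        have := hDΛ Ds hDs
        linarith
      have h3 : 2 * Λ ≤ 2 * Λ / τ * (s - D φ) := by
        calc 2 * Λ = 2 * Λ / τ * τ := by rw [div_mul_cancel₀]; exact hτ.ne'
          _ ≤ _ := mul_le_mul_of_nonneg_left (by linarith) (by positivity)
      linarith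
  obtain ⟨a0, b0, h0, hh0, ha0, hah0, hb0, hb01, hDs_eq⟩ := hDs
  set L : ℝ := Λ * ‖φ‖ with hL
  have hL0 : 0 ≤ L := by positivity
  obtain ⟨q, hqm⟩ := exists_nat_gt (max (2 * L / η) (h0 / (1 - b0)))
  have hb01' : 0 < 1 - b0 := by linarith
  have hq : 2 * L / η < q := lt_of_le_of_lt (le_max_left _ _) hqm
  have hq' : h0 / (1 - b0) < q := lt_of_le_of_lt (le_max_right _ _) hqm
  have hq0 : (0 : ℝ) < q := lt_of_le_of_lt (by positivity) hq
  have hqL : 2 * L ≤ η * q := by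
    rw [div_lt_iff₀ hηp] at hq
    linarith
  have hn0 : (0 : ℝ) < n := by exact_mod_cast hn
  set r : ℝ := h0 / q with hr
  have hrp : 0 < r := by positivity
  have hrb : b0 + r < 1 := by
    rw [div_lt_iff₀ hb01'] at hq'
    have : h0 / q < 1 - b0 := by
      rw [div_lt_iff₀ hq0]
      linarith
    rw [← hr] at this
    linarith
  set σ : ℝ := r / n with hσ
  have hσp : 0 < σ := by positivity
  have hnσ : n * σ = r := by rw [hσ]; field_simp
  set α : ℝ → ℝ → ℝ := fun a b => A a b φ with hα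
  have hαb : ∀ a b b', |α a b - α a b'| ≤ L * |b - b'| := by
    intro a b b'
    have h1 := hA a b a b'
    rw [sub_self, abs_zero, zero_add] at h1
    simp only [hα]
    rw [← sub_apply]
    calc _ ≤ ‖A a b - A a b'‖ * ‖φ‖ := (A a b - A a b').le_opNorm φ
      _ ≤ Λ * |b - b'| * ‖φ‖ := mul_le_mul_of_nonneg_right h1 (norm_nonneg _)
      _ = _ := by rw [hL]; ring
  have hbase : s * h0 - (α (a0 + h0) b0 - α a0 b0) ≤ η * h0 := by
    have h1 : s - η < h0⁻¹ * (α (a0 + h0) b0 - α a0 b0) := by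
      have := hDsφ
      rw [hDs_eq, smul_apply, sub_apply, smul_eq_mul] at this
      exact this
    rw [lt_inv_mul_iff₀ hh0] at h1
    linarith
  have hrow : ∀ j ∈ range n, s * h0 - (α (a0 + h0) (b0 + j * σ) - α a0 (b0 + j * σ))
      ≤ 2 * η * h0 := by
    intro j hj
    have hj' : (j : ℝ) * σ ≤ r := by
      have : (j : ℝ) ≤ n := by exact_mod_cast (mem_range.1 hj).le
      rw [← hnσ]
      exact mul_le_mul_of_nonneg_right this hσp.le
    have hj0 : 0 ≤ (j : ℝ) * σ := by positivity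
    have h1 := hαb (a0 + h0) (b0 + j * σ) b0
    have h2 := hαb a0 (b0 + j * σ) b0
    rw [add_sub_cancel_left, abs_of_nonneg hj0] at h1 h2
    have h3 : L * (j * σ) ≤ L * r := mul_le_mul_of_nonneg_left hj' hL0
    have h4 : 2 * (L * r) ≤ η * h0 := by
      have : 2 * (L * r) = 2 * L * h0 / q := by rw [hr]; ring
      rw [this, div_le_iff₀ hq0]
      have := mul_le_mul_of_nonneg_right hqL hh0.le
      linarith
    rw [abs_le] at h1 h2
    linarith
  -- choose a block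
  set F : ℕ → ℝ := fun β => ∑ j ∈ range n,
    (s * r - (α (a0 + ((β + 1 : ℕ) : ℝ) * r) (b0 + j * σ) - α (a0 + β * r) (b0 + j * σ))) with hF
  have hFsum : ∑ β ∈ range q, F β ≤ ∑ β ∈ range q, 2 * η * r * n := by
    simp only [hF]
    rw [sum_comm]
    have e1 : ∀ j ∈ range n, ∑ β ∈ range q,
        (s * r - (α (a0 + ((β + 1 : ℕ) : ℝ) * r) (b0 + j * σ) - α (a0 + β * r) (b0 + j * σ)))
        ≤ 2 * η * h0 := by
      intro j hj
      rw [sum_sub_distrib, sum_range_sub (fun β : ℕ => α (a0 + β * r) (b0 + j * σ)), sum_const,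
        card_range, nsmul_eq_mul]
      have e2 : (q : ℝ) * r = h0 := by rw [hr]; field_simp
      have e3 : (q : ℝ) * (s * r) = s * h0 := by rw [← e2]; ring
      rw [e3, e2, Nat.cast_zero, zero_mul, add_zero]
      exact hrow j hj
    refine (sum_le_sum e1).trans ?_
    rw [sum_const, sum_const, card_range, card_range, nsmul_eq_mul, nsmul_eq_mul]
    have e2 : (q : ℝ) * r = h0 := by rw [hr]; field_simp
    apply le_of_eq
    rw [← e2]; ring
  obtain ⟨β, hβq, hβ⟩ := exists_le_of_sum_le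
    (nonempty_range_iff.2 (by rintro rfl; simp at hq0)) hFsum
  have hβr : (β : ℝ) * r + r ≤ h0 := by
    have e2 : (q : ℝ) * r = h0 := by rw [hr]; field_simp
    have e3 : (β : ℝ) + 1 ≤ q := by exact_mod_cast mem_range.1 hβq
    have := mul_le_mul_of_nonneg_right e3 hrp.le
    linarith
  have hβr0 : 0 ≤ (β : ℝ) * r := by positivity
  refine ⟨a0 + β * r, b0, σ, Ds, hσp, by linarith, by rw [hnσ]; linarith, hb0,
    by rw [hnσ]; linarith, ?_⟩
  have hpt : ∀ i j : ℕ, i < n → j < n → ‖A (a0 + β * r + ((i + 1 : ℕ) : ℝ) * σ) (b0 + j * σ)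
      - A (a0 + β * r + i * σ) (b0 + j * σ) - σ • Ds‖
      ≤ σ * (ε / 2) + 2 * Λ / τ * (s * σ - (α (a0 + β * r + ((i + 1 : ℕ) : ℝ) * σ) (b0 + j * σ)
      - α (a0 + β * r + i * σ) (b0 + j * σ))) := by
    intro i j hin hjn
    have hi1 : ((i : ℝ) + 1) * σ ≤ r := by
      have e3 : (i : ℝ) + 1 ≤ n := by exact_mod_cast hin
      have := mul_le_mul_of_nonneg_right e3 hσp.le
      rwa [hnσ] at this
    have hi0 : 0 ≤ (i : ℝ) * σ := by positivity
    have hj1 : (j : ℝ) * σ ≤ r := by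
      have e3 : (j : ℝ) ≤ n := by exact_mod_cast hjn.le
      have := mul_le_mul_of_nonneg_right e3 hσp.le
      rwa [hnσ] at this
    have hj0 : 0 ≤ (j : ℝ) * σ := by positivity
    have e1 : a0 + β * r + ((i + 1 : ℕ) : ℝ) * σ = (a0 + β * r + i * σ) + σ := by push_cast; ring
    rw [e1]
    set x := a0 + β * r + i * σ
    set y := b0 + j * σ
    have hx0 : 0 ≤ x := by
      have : x = a0 + β * r + i * σ := rfl
      linarith
    have hx1 : x + σ ≤ 1 := by
      have : x = a0 + β * r + i * σ := rfl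
      linarith
    have hy0 : 0 ≤ y := by
      have : y = b0 + j * σ := rfl
      linarith
    have hy1 : y < 1 := by
      have : y = b0 + j * σ := rfl
      linarith
    have h1 := hnear _ (hmem x y σ hσp hx0 hx1 hy0 hy1)
    have h2 : A (x + σ) y - A x y - σ • Ds = σ • (σ⁻¹ • (A (x + σ) y - A x y) - Ds) := by
      rw [smul_sub, smul_smul, mul_inv_cancel₀ hσp.ne', one_smul]
    rw [h2, norm_smul, Real.norm_eq_abs, abs_of_pos hσp]
    have h3 := mul_le_mul_of_nonneg_left h1 hσp.le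
    refine h3.trans (le_of_eq ?_)
    have h4 : (σ⁻¹ • (A (x + σ) y - A x y)) φ = σ⁻¹ * (α (x + σ) y - α x y) := by
      rw [smul_apply, sub_apply, smul_eq_mul]
    rw [h4]
    field_simp
  have hsum : ∑ j ∈ range n, ∑ i ∈ range n,
      (s * σ - (α (a0 + β * r + ((i + 1 : ℕ) : ℝ) * σ) (b0 + j * σ)
      - α (a0 + β * r + i * σ) (b0 + j * σ))) = F β := by
    simp only [hF]
    apply sum_congr rfl
    intro j _
    rw [sum_sub_distrib, sum_range_sub (fun i : ℕ => α (a0 + β * r + i * σ) (b0 + j * σ)),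
      sum_const, card_range, nsmul_eq_mul, hnσ, Nat.cast_zero, zero_mul, add_zero]
    have e2 : (n : ℝ) * (s * σ) = s * r := by rw [← hnσ]; ring
    have e3 : a0 + ((β + 1 : ℕ) : ℝ) * r = a0 + β * r + r := by push_cast; ring
    rw [e2, e3]
  calc _ ≤ ∑ j ∈ range n, ∑ i ∈ range n, (σ * (ε / 2) + 2 * Λ / τ *
        (s * σ - (α (a0 + β * r + ((i + 1 : ℕ) : ℝ) * σ) (b0 + j * σ)
        - α (a0 + β * r + i * σ) (b0 + j * σ)))) :=
        sum_le_sum fun j hj => sum_le_sum fun i hi => hpt i j (mem_range.1 hi) (mem_range.1 hj)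
    _ = n ^ 2 * (σ * (ε / 2)) + 2 * Λ / τ * F β := by
        simp only [sum_add_distrib, ← mul_sum]
        rw [hsum, sum_const, sum_const, card_range, nsmul_eq_mul, nsmul_eq_mul]
        ring
    _ ≤ n ^ 2 * (σ * (ε / 2)) + 2 * Λ / τ * (2 * η * r * n) := by
        have := mul_le_mul_of_nonneg_left hβ (show 0 ≤ 2 * Λ / τ by positivity)
        linarith
    _ ≤ ε * n ^ 2 * σ := by
        have h1 : 2 * Λ / τ * (2 * η * r * n) = 4 * Λ * η / τ * (n ^ 2 * σ) := by
          rw [← hnσ]; ring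
        have h2 : 4 * Λ * η / τ ≤ ε / 2 := by
          rw [div_le_iff₀ hτ]
          nlinarith
        have h3 := mul_le_mul_of_nonneg_right h2 (show 0 ≤ (n : ℝ) ^ 2 * σ by positivity)
        rw [h1]
        linarith


/-- Local form of `LF.no_embedding`: the lower bound is only needed on the test elements supported
in the unit square. -/
theorem no_embedding_local (T : FreeSp Plane 0 →L[ℝ] FreeSp Lines lo) (c : ℝ) (hc : 0 < c)
    (hT : ∀ (n m1 m2 : ℕ) (a b σ : ℝ), 0 < σ → 0 ≤ a → a + n * σ ≤ 1 → 0 ≤ b → b + n * σ ≤ 1 →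
      c * ‖LF.em n m1 m2 a b σ‖ ≤ ‖T (LF.em n m1 m2 a b σ)‖) : False := by
  have hπ := Real.pi_pos
  obtain ⟨N, hN1, hN⟩ := diverge (((1 + 4 * ‖T‖) * (8 * π) / c) ^ 2)
  set S : ℝ := Real.sqrt (∑ m ∈ idx N, (1 / ((m.1 : ℝ) + m.2)) ^ 2) with hS
  have hS0 : 0 ≤ S := Real.sqrt_nonneg _
  have hSsq : S ^ 2 = ∑ m ∈ idx N, (1 / ((m.1 : ℝ) + m.2)) ^ 2 :=
    Real.sq_sqrt (sum_nonneg fun _ _ => sq_nonneg _)
  have hSbig : (1 + 4 * ‖T‖) * (8 * π) / c < S := by
    rw [hS]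
    apply Real.lt_sqrt_of_sq_lt
    exact hN
  have hShalf : 1 / 2 ≤ S := by
    rw [hS]
    apply Real.le_sqrt_of_sq_le
    have h1 : ((1 : ℕ), (1 : ℕ)) ∈ idx N := by
      rw [idx, mem_product, mem_Icc]; exact ⟨⟨le_rfl, hN1⟩, ⟨le_rfl, hN1⟩⟩
    refine le_trans ?_ (single_le_sum (f := fun m : ℕ × ℕ => (1 / ((m.1 : ℝ) + m.2)) ^ 2)
      (fun _ _ => sq_nonneg _) h1)
    norm_num
  have hNp : (0 : ℝ) < N := by exact_mod_cast hN1
  set n : ℕ := 2 * N + 1 with hn
  have hnp : (0 : ℝ) < n := by positivity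
  set ε : ℝ := 1 / (8 * N ^ 2) with hε
  have hεp : 0 < ε := by positivity
  obtain ⟨a, b, σ, Ds, hσ, ha0, ha1, hb0, hb1, hprop⟩ := propagate_local (TA T) (5 * ‖T‖) (by positivity) (TA_lip T)
    (TA_app T) ε hεp n (by omega)
  set B : ℕ → ℕ → StrongDual ℝ (Lip0 ZZ (0, 0)) := fun i j => TA T (a + i * σ) (b + j * σ) with hB
  set ε' : ℝ := n * σ / (4 * N ^ 2) with hε'
  have hε'p : 0 < ε' := by positivity
  -- choose q
  have hqex : ∀ᶠ q : ℕ in Filter.atTop, ∀ i ∈ range n, ∀ j ∈ range n, ∀ f : Lip0 Lines lo,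
      |Tx T (a + i * σ) (b + j * σ) (f - J (Res f))
        - ∑ ω ∈ Om q, gr q f ω * Tx T (a + i * σ) (b + j * σ) (psi q ω)| ≤ ε' * ‖f‖ := by
    rw [Filter.eventually_all_finset]
    intro i _
    rw [Filter.eventually_all_finset]
    intro j _
    exact psi_lower _ (Tx_mem T _ _) ε' hε'p
  obtain ⟨q, hq, hq1⟩ := (hqex.and (Filter.eventually_ge_atTop 1)).exists
  have hqp : (0 : ℝ) < q := by exact_mod_cast hq1
  set X : ℕ → ℕ → StrongDual ℝ (Lip0 Lines lo) := fun i j => Tx T (a + i * σ) (b + j * σ) with hX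
  set bω : ℤ × (ℕ × ℕ) → ℕ → ℕ → ℝ := fun ω i j => X i j (psi q ω) with hbω
  have hw : ∀ m1 m2 i j : ℕ, |cw n m1 i * cw n m2 j| ≤ 1 := by
    intro m1 m2 i j
    rw [abs_mul]
    exact mul_le_one₀ (abs_cw_le _ _ _) (abs_nonneg _) (abs_cw_le _ _ _)
  -- bound for each m
  have hm : ∀ m ∈ idx N, c * ((n : ℝ) ^ 3 * σ / (8 * π)) * (1 / ((m.1 : ℝ) + m.2))
      ≤ (2 * ε * n ^ 3 * σ + n ^ 2 * ε') + (1 / q) * ∑ ω ∈ Om q, |pr n m.1 m.2 (bω ω)| := by
    intro m hm
    rw [idx, mem_product, mem_Icc, mem_Icc] at hm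
    obtain ⟨⟨hm1, hm1'⟩, hm2, hm2'⟩ := hm
    have hms : (0 : ℝ) < (m.1 : ℝ) + m.2 := by positivity
    have l1 := em_lower n m.1 m.2 hm1 (by omega) hm2 (by omega) a b σ hσ
    have l2 : c * ((n : ℝ) ^ 3 * σ / (8 * π)) * (1 / ((m.1 : ℝ) + m.2))
        ≤ c * ‖LF.em n m.1 m.2 a b σ‖ := by
      rw [mul_assoc]
      apply mul_le_mul_of_nonneg_left _ hc.le
      have : (n : ℝ) ^ 3 * σ / (8 * π) * (1 / ((m.1 : ℝ) + m.2))
          = ((n : ℝ) ^ 2 / 4) / (2 * π * (m.1 + m.2) / (n * σ)) := by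
        field_simp
        ring
      rw [this, div_le_iff₀ (by positivity)]
      exact l1
    refine l2.trans ((hT n m.1 m.2 a b σ hσ ha0 ha1 hb0 hb1).trans ?_)
    set ν : StrongDual ℝ (Lip0 Lines lo) := ∑ i ∈ range n, ∑ j ∈ range n,
      (cw n m.1 i * cw n m.2 j) • X i j with hν
    have l3 : ‖T (LF.em n m.1 m.2 a b σ)‖ = ‖ν‖ := by
      have : ν = inc Lines lo (T (LF.em n m.1 m.2 a b σ)) := by
        unfold LF.em
        rw [map_sum, map_sum, hν]
        apply sum_congr rfl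
        intro i _
        rw [map_sum, map_sum]
        apply sum_congr rfl
        intro j _
        rw [map_smul, map_smul]
        rfl
      rw [this]
      rfl
    rw [l3]
    have hνa : ∀ f, ν f = ∑ i ∈ range n, ∑ j ∈ range n, (cw n m.1 i * cw n m.2 j) * X i j f := by
      intro f
      rw [hν, _root_.sum_apply]
      apply sum_congr rfl
      intro i _
      rw [_root_.sum_apply]
      rfl
    have hpos1 : 0 ≤ (1 / (q : ℝ)) * ∑ ω ∈ Om q, |pr n m.1 m.2 (bω ω)| :=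
      mul_nonneg (by positivity) (sum_nonneg fun _ _ => abs_nonneg _)
    apply ContinuousLinearMap.opNorm_le_bound _ (by positivity)
    intro f
    have s1 : ν f = ν (J (Res f)) + ν (f - J (Res f)) := by rw [map_sub]; ring
    have s2 : |ν (J (Res f))| ≤ 2 * ε * n ^ 3 * σ * ‖f‖ := by
      have k1 := kill n m.1 m.2 hm1 (by omega) hm2 (by omega) B (σ • Ds) (ε * n ^ 2 * σ) (by
        simpa only [hB] using hprop)
      have k2 : ν (J (Res f)) = (∑ i ∈ range n, ∑ j ∈ range n,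
          (cw n m.1 i * cw n m.2 j) • B i j) (Res f) := by
        rw [hνa, _root_.sum_apply]
        apply sum_congr rfl
        intro i _
        rw [_root_.sum_apply]
        rfl
      rw [k2]
      calc _ ≤ ‖∑ i ∈ range n, ∑ j ∈ range n, (cw n m.1 i * cw n m.2 j) • B i j‖ * ‖Res f‖ :=
            ContinuousLinearMap.le_opNorm _ _
        _ ≤ (n * (ε * n ^ 2 * σ)) * (2 * ‖f‖) :=
            mul_le_mul k1 (norm_Res_le f) (norm_nonneg _) (by positivity)
        _ = _ := by ring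
    have s3 : |ν (f - J (Res f)) - ∑ ω ∈ Om q, gr q f ω * pr n m.1 m.2 (bω ω)|
        ≤ n ^ 2 * ε' * ‖f‖ := by
      have e1 : ∑ ω ∈ Om q, gr q f ω * pr n m.1 m.2 (bω ω)
          = ∑ i ∈ range n, ∑ j ∈ range n, (cw n m.1 i * cw n m.2 j) *
            ∑ ω ∈ Om q, gr q f ω * X i j (psi q ω) := by
        simp only [pr, mul_sum]
        rw [sum_comm]
        apply sum_congr rfl
        intro i _
        rw [sum_comm]
        apply sum_congr rfl
        intro j _
        apply sum_congr rfl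
        intro ω _
        simp only [hbω]
        ring
      rw [hνa, e1, ← sum_sub_distrib]
      calc _ ≤ ∑ i ∈ range n, ∑ j ∈ range n, ε' * ‖f‖ := by
            refine (abs_sum_le_sum_abs _ _).trans ?_
            apply sum_le_sum
            intro i hi
            rw [← sum_sub_distrib]
            refine (abs_sum_le_sum_abs _ _).trans ?_
            apply sum_le_sum
            intro j hj
            rw [← mul_sub, abs_mul]
            calc _ ≤ 1 * (ε' * ‖f‖) :=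
                  mul_le_mul (hw _ _ _ _) (hq i hi j hj f) (abs_nonneg _) zero_le_one
              _ = _ := one_mul _
        _ = _ := by
            rw [sum_const, sum_const, card_range, nsmul_eq_mul, nsmul_eq_mul]; ring
    have s4 : |∑ ω ∈ Om q, gr q f ω * pr n m.1 m.2 (bω ω)|
        ≤ (1 / q) * (∑ ω ∈ Om q, |pr n m.1 m.2 (bω ω)|) * ‖f‖ := by
      calc _ ≤ ∑ ω ∈ Om q, |gr q f ω * pr n m.1 m.2 (bω ω)| := abs_sum_le_sum_abs _ _
        _ ≤ ∑ ω ∈ Om q, (‖f‖ / q) * |pr n m.1 m.2 (bω ω)| := by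
            apply sum_le_sum
            intro ω _
            rw [abs_mul]
            exact mul_le_mul_of_nonneg_right (gr_le q hq1 f ω) (abs_nonneg _)
        _ = _ := by rw [← mul_sum]; ring
    rw [Real.norm_eq_abs, s1]
    calc |ν (J (Res f)) + ν (f - J (Res f))|
        = |ν (J (Res f)) + (ν (f - J (Res f)) - ∑ ω ∈ Om q, gr q f ω * pr n m.1 m.2 (bω ω))
          + ∑ ω ∈ Om q, gr q f ω * pr n m.1 m.2 (bω ω)| := by congr 1; ring
      _ ≤ |ν (J (Res f))| + |ν (f - J (Res f)) - ∑ ω ∈ Om q, gr q f ω * pr n m.1 m.2 (bω ω)|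
          + |∑ ω ∈ Om q, gr q f ω * pr n m.1 m.2 (bω ω)| := abs_add_three _ _ _
      _ ≤ 2 * ε * n ^ 3 * σ * ‖f‖ + n ^ 2 * ε' * ‖f‖
          + (1 / q) * (∑ ω ∈ Om q, |pr n m.1 m.2 (bω ω)|) * ‖f‖ := by linarith
      _ = _ := by ring
  -- sum over m
  set cm : ℕ × ℕ → ℝ := fun m => 1 / ((m.1 : ℝ) + m.2) with hcm
  have hcm0 : ∀ m, 0 ≤ cm m := fun m => by simp only [hcm]; positivity
  have hcm1 : ∀ m ∈ idx N, cm m ≤ 1 := by
    intro m hm
    rw [idx, mem_product, mem_Icc, mem_Icc] at hm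
    have : (1 : ℝ) ≤ m.1 := by exact_mod_cast hm.1.1
    have : (0 : ℝ) ≤ m.2 := by positivity
    simp only [hcm]
    rw [div_le_one (by linarith)]
    linarith
  have hcard : ∑ m ∈ idx N, cm m ≤ N ^ 2 := by
    calc _ ≤ ∑ m ∈ idx N, (1 : ℝ) := sum_le_sum hcm1
      _ = _ := by
        rw [sum_const, idx, card_product, Nat.card_Icc, nsmul_eq_mul]
        push_cast
        simp
        ring
  have hsumm : c * ((n : ℝ) ^ 3 * σ / (8 * π)) * S ^ 2
      ≤ (2 * ε * n ^ 3 * σ + n ^ 2 * ε') * N ^ 2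
        + (1 / q) * ∑ ω ∈ Om q, (S * (n / 2) * tv n (bω ω)) := by
    have e1 : c * ((n : ℝ) ^ 3 * σ / (8 * π)) * S ^ 2
        = ∑ m ∈ idx N, cm m * (c * ((n : ℝ) ^ 3 * σ / (8 * π)) * (1 / ((m.1 : ℝ) + m.2))) := by
      rw [hSsq, mul_sum]
      apply sum_congr rfl
      intro m _
      simp only [hcm]
      ring
    rw [e1]
    calc _ ≤ ∑ m ∈ idx N, cm m * ((2 * ε * n ^ 3 * σ + n ^ 2 * ε')
          + (1 / q) * ∑ ω ∈ Om q, |pr n m.1 m.2 (bω ω)|) :=
          sum_le_sum fun m hm' => mul_le_mul_of_nonneg_left (hm m hm') (hcm0 m)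
      _ = (2 * ε * n ^ 3 * σ + n ^ 2 * ε') * ∑ m ∈ idx N, cm m
          + (1 / q) * ∑ ω ∈ Om q, ∑ m ∈ idx N, cm m * |pr n m.1 m.2 (bω ω)| := by
          simp only [mul_add, sum_add_distrib]
          congr 1
          · rw [add_mul, mul_sum, mul_sum]
            congr 1
            · apply sum_congr rfl
              intro m _
              ring
            · apply sum_congr rfl
              intro m _
              ring
          · rw [sum_comm, mul_sum]
            apply sum_congr rfl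
            intro m _
            rw [mul_sum, mul_sum, mul_sum]
            apply sum_congr rfl
            intro ω _
            ring
      _ ≤ _ := by
          apply add_le_add
          · exact mul_le_mul_of_nonneg_left hcard (by positivity)
          · apply mul_le_mul_of_nonneg_left _ (by positivity)
            apply sum_le_sum
            intro ω _
            exact kis_scalar N n (by omega) cm S hS0 (le_of_eq hSsq.symm) (bω ω)
  have htv : ∑ ω ∈ Om q, tv n (bω ω) ≤ 8 * n ^ 2 * q * ‖T‖ * σ := by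
    have hedge : ∀ i j i' j' : ℕ, ‖X i j - X i' j'‖ ≤ ‖T‖ * (|((i : ℝ) - i')| * σ + |((j : ℝ) - j')| * σ) := by
      intro i j i' j'
      refine (Tx_lip T _ _ _ _).trans ?_
      have a1 : a + i * σ - (a + i' * σ) = ((i : ℝ) - i') * σ := by ring
      have a2 : b + j * σ - (b + j' * σ) = ((j : ℝ) - j') * σ := by ring
      rw [a1, a2, abs_mul, abs_mul, abs_of_pos hσ]
    have hup : ∀ i j i' j' : ℕ, ‖X i j - X i' j'‖ ≤ ‖T‖ * σ →
        ∑ ω ∈ Om q, |bω ω i j - bω ω i' j'| ≤ 4 * q * (‖T‖ * σ) := by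
      intro i j i' j' h
      have h1 := psi_upper q hq1 (X i j - X i' j')
      calc _ = ∑ ω ∈ Om q, |(X i j - X i' j') (psi q ω)| := rfl
        _ ≤ 4 * q * ‖X i j - X i' j'‖ := h1
        _ ≤ _ := mul_le_mul_of_nonneg_left h (by positivity)
    have hx : ∀ i j : ℕ, ‖X (i + 1) j - X i j‖ ≤ ‖T‖ * σ := by
      intro i j
      have := hedge (i + 1) j i j
      push_cast at this
      simpa using this
    have hy : ∀ i j : ℕ, ‖X i (j + 1) - X i j‖ ≤ ‖T‖ * σ := by
      intro i j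
      have := hedge i (j + 1) i j
      push_cast at this
      simpa using this
    simp only [tv, sum_add_distrib]
    have t1 : ∑ ω ∈ Om q, ∑ j ∈ range n, ∑ i ∈ range n, |bω ω (i + 1) j - bω ω i j|
        ≤ n ^ 2 * (4 * q * (‖T‖ * σ)) := by
      rw [sum_comm]
      calc _ ≤ ∑ j ∈ range n, ∑ i ∈ range n, 4 * q * (‖T‖ * σ) := by
            apply sum_le_sum
            intro j _
            rw [sum_comm]
            apply sum_le_sum
            intro i _
            exact hup (i + 1) j i j (hx i j)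
        _ = _ := by
            rw [sum_const, sum_const, card_range, nsmul_eq_mul, nsmul_eq_mul]; ring
    have t2 : ∑ ω ∈ Om q, ∑ i ∈ range n, ∑ j ∈ range n, |bω ω i (j + 1) - bω ω i j|
        ≤ n ^ 2 * (4 * q * (‖T‖ * σ)) := by
      rw [sum_comm]
      calc _ ≤ ∑ i ∈ range n, ∑ j ∈ range n, 4 * q * (‖T‖ * σ) := by
            apply sum_le_sum
            intro i _
            rw [sum_comm]
            apply sum_le_sum
            intro j _
            exact hup i (j + 1) i j (hy i j)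
        _ = _ := by
            rw [sum_const, sum_const, card_range, nsmul_eq_mul, nsmul_eq_mul]; ring
    linarith
  have hfin : c * ((n : ℝ) ^ 3 * σ / (8 * π)) * S ^ 2
      ≤ (n : ℝ) ^ 3 * σ * (S + 4 * ‖T‖ * S) := by
    have f1 : (1 / q) * ∑ ω ∈ Om q, (S * (n / 2) * tv n (bω ω))
        ≤ (n : ℝ) ^ 3 * σ * (4 * ‖T‖ * S) := by
      rw [← mul_sum]
      calc (1 / (q : ℝ)) * (S * (n / 2) * ∑ ω ∈ Om q, tv n (bω ω))
          ≤ (1 / (q : ℝ)) * (S * (n / 2) * (8 * n ^ 2 * q * ‖T‖ * σ)) := by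
            apply mul_le_mul_of_nonneg_left _ (by positivity)
            exact mul_le_mul_of_nonneg_left htv (by positivity)
        _ = _ := by field_simp; ring
    have f2 : (2 * ε * n ^ 3 * σ + n ^ 2 * ε') * N ^ 2 = (n : ℝ) ^ 3 * σ * (1 / 2) := by
      rw [hε, hε']
      field_simp
      ring
    rw [f2] at hsumm
    have f3 : (n : ℝ) ^ 3 * σ * (1 / 2) ≤ (n : ℝ) ^ 3 * σ * S :=
      mul_le_mul_of_nonneg_left hShalf (by positivity)
    linarith
  have hSp : 0 < S := by linarith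
  have g1 : c * S / (8 * π) ≤ 1 + 4 * ‖T‖ := by
    have e1 : c * ((n : ℝ) ^ 3 * σ / (8 * π)) * S ^ 2 = ((n : ℝ) ^ 3 * σ * S) * (c * S / (8 * π)) := by
      ring
    have e2 : (n : ℝ) ^ 3 * σ * (S + 4 * ‖T‖ * S) = ((n : ℝ) ^ 3 * σ * S) * (1 + 4 * ‖T‖) := by ring
    rw [e1, e2] at hfin
    exact le_of_mul_le_mul_left hfin (by positivity)
  rw [div_lt_iff₀ hc] at hSbig
  rw [div_le_iff₀ (by positivity)] at g1
  linarith


end Pool.Agent.Y139.FR
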